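import Mathlib

set_option autoImplicit false

namespace Pool.Agent.H.MP_633b85_co

open Set

theorem aug {S V K : Type} [Field K] [AddCommGroup V] [Module K V] [Fintype S] (v : S → V)
    (I J : Set S) (hI : LinearIndepOn K v I) (hJ : LinearIndepOn K v J) (h : I.ncard < J.ncard) :
    ∃ e ∈ J, e ∉ I ∧ LinearIndepOn K v (insert e I) := by
  classical
  by_contra hc
  push Not at hc
  have hsub : Submodule.span K (v '' J) ≤ Submodule.span K (v '' I) := by
    rw [Submodule.span_le]
    rintro _ ⟨e, he, rfl⟩
    by_cases heI : e ∈ I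
    · exact Submodule.subset_span ⟨e, heI, rfl⟩
    · have := hc e he heI
      rw [linearIndepOn_insert heI] at this
      by_contra hn
      exact this ⟨hI, hn⟩
  have hr : ∀ T : Set S, LinearIndepOn K v T →
      Module.finrank K (Submodule.span K (v '' T)) = T.ncard := by
    intro T hT
    have h1 := finrank_span_eq_card (R := K) (b := fun x : T => v x) hT
    have h2 : range (fun x : T => v x) = v '' T := by
      ext y
      simp
    rw [h2] at h1
    rw [h1, ← Nat.card_eq_fintype_card, Nat.card_coe_set_eq]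
  have : FiniteDimensional K (Submodule.span K (v '' I)) :=
    FiniteDimensional.span_of_finite K ((toFinite I).image v)
  have := Submodule.finrank_mono hsub
  rw [hr I hI, hr J hJ] at this
  omega

noncomputable def linM {S V : Type} (K : Type) [Field K] [AddCommGroup V] [Module K V] [Fintype S]
    (v : S → V) : Matroid S :=
  (IndepMatroid.ofFinite (E := (univ : Set S)) finite_univ (fun I => LinearIndepOn K v I)
    (linearIndepOn_empty K v) (fun _ _ hJ hIJ => hJ.mono hIJ)
    (fun I J hI hJ h => aug v I J hI hJ h) (fun _ _ => subset_univ _)).matroid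

theorem linM_E {S V : Type} (K : Type) [Field K] [AddCommGroup V] [Module K V] [Fintype S]
    (v : S → V) : (linM K v).E = univ := rfl

theorem linM_indep {S V : Type} (K : Type) [Field K] [AddCommGroup V] [Module K V] [Fintype S]
    (v : S → V) (I : Set S) : (linM K v).Indep I ↔ LinearIndepOn K v I := by
  simp [linM]

noncomputable def dsum {S : Type} (A : Fin 2 → Matroid S) : Matroid (S × Fin 2) :=
  (Matroid.sum' A).mapEquiv (Equiv.prodComm (Fin 2) S)

theorem dsum_indep {S : Type} (A : Fin 2 → Matroid S) (I : Set (S × Fin 2)) :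
    (dsum A).Indep I ↔ ∀ i, (A i).Indep {e | (e, i) ∈ I} := by
  unfold dsum
  rw [Matroid.mapEquiv_indep_iff, Matroid.sum'_indep_iff]
  refine forall_congr' fun i => ?_
  have : Prod.mk i ⁻¹' ((Equiv.prodComm (Fin 2) S).symm '' I) = {e | (e, i) ∈ I} := by
    ext e
    constructor
    · rintro ⟨⟨a, b⟩, h1, h2⟩
      have h3 : (b, a) = (i, e) := h2
      obtain ⟨rfl, rfl⟩ := Prod.mk.inj h3
      exact h1
    · intro h
      exact ⟨(e, i), h, rfl⟩
  rw [this]

theorem dsum_E {S : Type} (A : Fin 2 → Matroid S) (hE : ∀ i, (A i).E = univ) :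
    (dsum A).E = univ := by
  unfold dsum
  rw [Matroid.mapEquiv_ground_eq, Matroid.sum'_ground_eq]
  ext ⟨e, i⟩
  simp [hE]

theorem dsum_circ {S : Type} (A : Fin 2 → Matroid S) (C : Set (S × Fin 2))
    (hC : (dsum A).IsCircuit C) (e : S) : ¬ ((e, 0) ∈ C ∧ (e, 1) ∈ C) := by
  rintro ⟨h0, h1⟩
  apply hC.not_indep
  rw [dsum_indep]
  have a0 := hC.sdiff_singleton_indep h0
  have a1 := hC.sdiff_singleton_indep h1
  rw [dsum_indep] at a0 a1
  rw [Fin.forall_fin_two]
  constructor
  · refine (a1 0).subset fun x hx => ⟨hx, ?_⟩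
    simp
  · refine (a0 1).subset fun x hx => ⟨hx, ?_⟩
    simp

theorem dsum_rk {S : Type} [Fintype S] (A : Fin 2 → Matroid S) (X : Finset S) :
    (dsum A).eRk ((↑X : Set S) ×ˢ (univ : Set (Fin 2))) = ((2 * X.card : ℕ) : ℕ∞) ↔
      ∀ i, (A i).Indep (X : Set S) := by
  have h1 : ((↑X : Set S) ×ˢ (univ : Set (Fin 2))).encard = ((2 * X.card : ℕ) : ℕ∞) := by
    have : ((↑X : Set S) ×ˢ (univ : Set (Fin 2))) = ↑(X ×ˢ (Finset.univ : Finset (Fin 2))) := by
      simp
    rw [this, encard_coe_eq_coe_finsetCard, Finset.card_product]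
    simp [mul_comm]
  rw [← h1, ← Matroid.indep_iff_eRk_eq_encard_of_finite (toFinite _), dsum_indep]
  refine forall_congr' fun i => ?_
  have : {e | (e, i) ∈ ((↑X : Set S) ×ˢ (univ : Set (Fin 2)))} = (X : Set S) := by
    ext e
    simp
  rw [this]

theorem key (S : Type) [Fintype S] [DecidableEq S] (A : Fin 2 → Matroid S)
    (m t : ℕ) (X : Fin m → Finset S) (hX : ∀ k i, (A i).Indep (X k : Set S)) (ht : 0 < t)
    (hm : m < 2 * t) (hc : ∀ e, t ≤ (Finset.univ.filter (fun k => e ∈ X k)).card)
    (hno : ∀ P Q : Finset S, (∀ i, (A i).Indep (P : Set S)) → (∀ i, (A i).Indep (Q : Set S)) →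
      (∀ e, e ∈ P ∨ e ∈ Q) → False)
    (H : ∀ w : Finset S → ℝ,
      (∀ X, 0 ≤ w X) →
      (∀ X, w X ≠ 0 →
        (dsum A).eRk ((↑X : Set S) ×ˢ (Set.univ : Set (Fin 2))) = ((2 * X.card : ℕ) : ℕ∞)) →
      (∀ e : S, 1 ≤ ∑ X ∈ Finset.univ.filter (fun X : Finset S => e ∈ X), w X) →
      ∃ (k : ℕ) (c : Fin k → Finset S),
        (∀ i, (dsum A).eRk ((↑(c i) : Set S) ×ˢ (Set.univ : Set (Fin 2)))
              = ((2 * (c i).card : ℕ) : ℕ∞)) ∧
        (∀ e : S, ∃ i, e ∈ c i) ∧
        (k : ℝ) ≤ (∑ X, w X) + 1) : False := by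
  have htR : (0 : ℝ) < t := by exact_mod_cast ht
  obtain ⟨k, c, h1, h2, h3⟩ := H (fun Y => ∑ k : Fin m, if X k = Y then (1 / t : ℝ) else 0)
    (fun Y => Finset.sum_nonneg fun k _ => by split_ifs <;> positivity)
    (fun Y hY => by
      rw [dsum_rk]
      obtain ⟨k, -, hk⟩ := Finset.exists_ne_zero_of_sum_ne_zero hY
      have : X k = Y := by
        by_contra hn
        simp [hn] at hk
      rw [← this]
      exact hX k)
    (fun e => by
      rw [Finset.sum_comm]
      have : ∀ k : Fin m, (∑ Y ∈ Finset.univ.filter (fun Y : Finset S => e ∈ Y),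
          if X k = Y then (1 / t : ℝ) else 0) = if e ∈ X k then (1 / t : ℝ) else 0 := by
        intro k
        rw [Finset.sum_ite_eq]
        simp
      simp only [this]
      rw [← Finset.sum_filter, Finset.sum_const, nsmul_eq_mul, mul_one_div, le_div_iff₀ htR,
        one_mul]
      exact_mod_cast hc e)
  rw [Finset.sum_comm] at h3
  simp only [Finset.sum_ite_eq, Finset.mem_univ, if_true, Finset.sum_const, Finset.card_univ,
    Fintype.card_fin, nsmul_eq_mul] at h3
  have hm' : (m : ℝ) < 2 * t := by exact_mod_cast hm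
  have h4 : (m : ℝ) * (1 / t) < 2 := by
    rw [mul_one_div, div_lt_iff₀ htR]
    exact hm'
  have h5 : k < 3 := by
    have : (k : ℝ) < 3 := by linarith
    exact_mod_cast this
  simp only [dsum_rk] at h1
  have hemp : ∀ i, (A i).Indep ((∅ : Finset S) : Set S) := fun i => by simp
  interval_cases k
  · exact hno ∅ ∅ hemp hemp fun e => by
      obtain ⟨i, -⟩ := h2 e
      exact i.elim0
  · exact hno (c 0) (c 0) (h1 0) (h1 0) fun e => by
      obtain ⟨i, hi⟩ := h2 e
      fin_cases i
      exact Or.inl hi
  · exact hno (c 0) (c 1) (h1 0) (h1 1) fun e => by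
      obtain ⟨i, hi⟩ := h2 e
      fin_cases i
      · exact Or.inl hi
      · exact Or.inr hi

def bit (a x : ℕ) : ZMod 2 := if a.testBit x then 1 else 0

def vecs : Fin 2 → List ℕ :=
  ![[3, 6, 5, 24, 34, 48, 10, 40, 20, 192, 257, 384, 65, 320, 132, 1536, 2049, 3072, 513, 2560, 1026],
    [3, 2049, 4097, 5, 6, 9, 10, 17, 18, 33, 34, 65, 66, 129, 130, 257, 258, 513, 514, 1025, 1026]]

def vv (i : Fin 2) (e : Fin 21) (x : Fin 13) : ZMod 2 := bit ((vecs i).getD e 0) x

def xs : List ℕ := [1387723, 832339, 732339, 1526570, 1225515, 838325, 1395381, 840909, 840909,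
  740300, 1389420, 748882, 830669, 1290932, 1291050, 1224028, 1397939, 1225397, 839466, 744786,
  1725782]

def fs (a : ℕ) : Finset (Fin 21) := Finset.univ.filter (fun e : Fin 21 => a.testBit e = true)

def XX (k : Fin 21) : Finset (Fin 21) := fs (xs.getD k 0)

def duals : Fin 2 → List ℕ :=
  ![[0x4000000020000000800000000000fbf0000008001c00000000000200038000000000fef00000ffb0bc1,
    0x8000e00000000000bff0000010001c0000000000f7f00100000000800000020000000000feb0fc1,
    0xdff000004000e00000000000fbf0000008001c0000000000ff7000000100038000000000ffb0fc1,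
    0xe010000020005fe0dfe000001c0000000000eff000000400038000000000fdf0000000800000e030000,
    0xe000000000007ff000002000000010001c0000000000f7f0038000000000fdf0000000800000fc301c1,
    0x8000e00000000000bff01c0000000000eff0000004000000ff700000010003800000e3b00000fc5,
    0x4000000020000000800000001c0000000000eff0000004000000ff700000010003800000e3b00000bc5,
    0x8000e00000000000bff008000000040000001000000000000200038000000000fef0f7b00000fc5,
    0x8000e00000000000bff008000000040000001000000000000200038000000000fef0f7b00000fc5,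
    0xdff000004000e00000001c0000000000eff00000040003a00200ffd00000000002a0e0100000000,
    0x400000002000000080000000000010001c0000000000f7f043a00000bfd0fdf0000040a0bc100000000,
    0xdff000004000e0000000fc10fbf000000be01fe00000010000000080000002000000000002a0000,
    0x8000e00000000000bff00000fbf0000008001c00000000000200038000000000fef0ffb00000fc5,
    0xfc500000000063a0e3a02000000010001c0000000000f7f00000ff700000010003800000ffb00000000,
    0xfc100000000063e0e3e02000000010001c0000000000f7f0038000000000fdf0000000800000fc30000,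
    0xe000000000007ff0000020000000fbf0000008001c000000e3a000001dd000000200e2a01c100000000,
    0x4000000020000000800000000800000004000000100000000000ff7000000100038000000000f7b0b41,
    0xe000000000007ff000002000000010001c0000000000f7f00000ff700000010003800000ffb000001c5,
    0x8000e00000000000bff0fc10000000000fe01fe00400038000000000fdf00000008000000020000,
    0xdff000004000e0000000fc10000004000be01be00000010000000080000002000000000002a0000,
    0xe000dff000005ff0000000000800000004000000100000000100000000800000020000001410e2a0000],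
    [0xbff00000dff00000eff000000000f7f00000fbf0fdf000000000fef0ff7000000000ffb000007ff08d5,
    0xbff0dff000000000eff00000f7f0fbf000000000fdf0fef00000ff700000ffb0000000007ff0da1,
    0xbff00000dff0eff000000000f7f00000fbf0fdf000000000fef00000ff70ffb0000000007ff0ed9,
    0xbff00000592086d0eff00000f7f000000000fbf00000fdf0fef000000000ff700000ffb000007ff0000,
    0xbff000000000dff00000eff00000f7f0fbf000000000fdf0fef000000000ff700000ffb000007ff0bad,
    0x13ff15ff0000000016ff177f0000000017bf000017df000017ef000017f717fb000007ff00001579,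
    0x13ff000015ff000016ff0000177f0000000017bf000017df000017ef000017f717fb000007ff00001079,
    0x13ff15ff0000000016ff177f000017bf000017df0000000017ef17f70000000017fb07ff00001515,
    0x13ff15ff0000000016ff177f000017bf000017df0000000017ef17f70000000017fb07ff00001515,
    0x13ff000015ff16ff0000177f0000000017bf000017df018a166517f70000000017fb07ff00000000,
    0x13ff000015ff000016ff00000000177f17bf0000000017df17ef0000075210a5000017fb07ff00000000,
    0xbff00000dff0eff0000013e0e4100000fbf0fdf00000fef00000ff700000ffb0000000007ff0000,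
    0x13ff15ff0000000016ff0000177f000017bf17df0000000017ef17f70000000017fb07ff000015d5,
    0x13ff0000000015ff044612b90000177f17bf0000000017df000017ef000017f717fb000007ff00000000,
    0xbff000000000dff04520aad00000f7f0fbf000000000fdf0fef000000000ff700000ffb000007ff0000,
    0x13ff0000000015ff000016ff0000177f000017bf17df000017ef000017f70000043a13c107ff00000000,
    0xbff00000dff00000eff00000f7f00000fbf00000fdf000000000fef00000ff70ffb0000000007ff0819,
    0x13ff0000000015ff000016ff0000177f17bf0000000017df000017ef000017f717fb000007ff000013b9,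
    0xbff0dff000000000eff0f7f000000000fbf02920d4d0fef000000000ff700000ffb000007ff0000,
    0xbff00000dff0eff00000f7f000001be0e010fdf00000fef00000ff700000ffb0000000007ff0000,
    0xfe1a0100001cff000000001e7f00001ebf00001edf00001eef00001ef700001efb00000eff16ff0000]]

def dd (i : Fin 2) (k j : Fin 21) (x : Fin 13) : ZMod 2 := bit ((duals i).getD k 0) (16 * j + x)

theorem dual_ok : ∀ (i : Fin 2) (k : Fin 21), ∀ j ∈ XX k, ∀ e ∈ XX k,
    ∑ x : Fin 13, dd i k j x * vv i e x = if e = j then 1 else 0 := by
  decide +kernel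

theorem cover_ok : ∀ e : Fin 21, 11 ≤ (Finset.univ.filter (fun k => e ∈ XX k)).card := by
  decide +kernel

def cyc : Fin 2 → List ℕ :=
  ![[7, 120, 168, 208, 306, 309, 330, 333, 7680, 10752, 13312, 19459, 19460, 19761, 19785, 20995,
    20996, 21297, 21321],
    [25, 97, 385, 1537, 1560, 1632, 1920, 6145, 6168, 6240, 6528, 24577]]

theorem cyc_ok : ∀ (i : Fin 2), ∀ c ∈ cyc i, (fs c).Nonempty ∧
    ∀ x : Fin 13, ∑ e ∈ fs c, vv i e x = 0 := by
  decide +kernel

noncomputable def AA (i : Fin 2) : Matroid (Fin 21) := linM (ZMod 2) (vv i)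

theorem XX_indep (k : Fin 21) (i : Fin 2) : (AA i).Indep (XX k : Set (Fin 21)) := by
  unfold AA
  rw [linM_indep, linearIndepOn_iff']
  intro t g ht h0 j hj
  have hj' : j ∈ XX k := ht hj
  have h1 : ∑ x : Fin 13, dd i k j x * (∑ e ∈ t, g e • vv i e) x = 0 := by
    rw [h0]
    simp
  simp only [Finset.sum_apply, Pi.smul_apply, smul_eq_mul, Finset.mul_sum] at h1
  rw [Finset.sum_comm] at h1
  have h2 : ∀ e ∈ t, ∑ x : Fin 13, dd i k j x * (g e * vv i e x) = if e = j then g e else 0 := by
    intro e he
    have := dual_ok i k j hj' e (ht he)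
    calc ∑ x : Fin 13, dd i k j x * (g e * vv i e x)
        = g e * ∑ x : Fin 13, dd i k j x * vv i e x := by
          rw [Finset.mul_sum]
          exact Finset.sum_congr rfl fun x _ => by ring
      _ = _ := by
          rw [this]
          split_ifs <;> simp
  rw [Finset.sum_congr rfl h2, Finset.sum_ite_eq'] at h1
  simpa [hj] using h1

theorem cyc_dep (i : Fin 2) (c : ℕ) (hc : c ∈ cyc i) (P : Finset (Fin 21))
    (hP : (AA i).Indep (P : Set (Fin 21))) (hs : ∀ e : Fin 21, c.testBit e = true → e ∈ P) :
    False := by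
  unfold AA at hP
  rw [linM_indep, linearIndepOn_iff'] at hP
  obtain ⟨⟨e, he⟩, h0⟩ := cyc_ok i c hc
  have := hP (fs c) (fun _ => 1) (fun x hx => hs x (by simpa [fs] using hx))
    (by
      ext x
      simpa [Finset.sum_apply] using h0 x) e he
  exact one_ne_zero this

def bad (r : ℕ) : Bool := (cyc 0 ++ cyc 1).any (fun c => c &&& r == c)

def srch : ℕ → ℕ → ℕ → Bool
  | 0, r, b => bad r || bad b
  | n + 1, r, b => bad r || bad b ||
      (srch n (r ||| 2 ^ (20 - n)) b && srch n r (b ||| 2 ^ (20 - n)))

theorem srch_ok : srch 21 0 0 = true := by decide +kernel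

theorem bad_false (P : Finset (Fin 21)) (hP : ∀ i, (AA i).Indep (P : Set (Fin 21))) (r : ℕ)
    (hr : ∀ e : Fin 21, r.testBit e = true → e ∈ P) : bad r = false := by
  by_contra h
  rw [Bool.not_eq_false] at h
  unfold bad at h
  rw [List.any_eq_true] at h
  obtain ⟨c, hc, h⟩ := h
  have h' : c &&& r = c := by simpa using h
  have hs : ∀ e : Fin 21, c.testBit e = true → e ∈ P := by
    intro e he
    apply hr
    rw [← h', Nat.testBit_and] at he
    simp only [Bool.and_eq_true] at he
    exact he.2
  rcases List.mem_append.1 hc with hc | hc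
  · exact cyc_dep 0 c hc P (hP 0) hs
  · exact cyc_dep 1 c hc P (hP 1) hs

theorem add_bit (P : Finset (Fin 21)) (r n : ℕ) (hn : n < 21)
    (hr : ∀ e : Fin 21, r.testBit e = true → e ∈ P) (h : (⟨n, hn⟩ : Fin 21) ∈ P) :
    ∀ e : Fin 21, (r ||| 2 ^ n).testBit e = true → e ∈ P := by
  intro e he
  rw [Nat.testBit_or, Bool.or_eq_true] at he
  rcases he with he | he
  · exact hr e he
  · rw [Nat.testBit_two_pow] at he
    have : n = e := by simpa using he
    have : (⟨n, hn⟩ : Fin 21) = e := Fin.ext this
    rwa [← this]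

theorem srch_false (P Q : Finset (Fin 21)) (hP : ∀ i, (AA i).Indep (P : Set (Fin 21)))
    (hQ : ∀ i, (AA i).Indep (Q : Set (Fin 21))) (h : ∀ e, e ∈ P ∨ e ∈ Q) :
    ∀ n r b : ℕ, (∀ e : Fin 21, r.testBit e = true → e ∈ P) →
      (∀ e : Fin 21, b.testBit e = true → e ∈ Q) → srch n r b = false := by
  intro n
  induction n with
  | zero =>
    intro r b hr hb
    simp [srch, bad_false P hP r hr, bad_false Q hQ b hb]
  | succ n ih =>
    intro r b hr hb
    have hn : 20 - n < 21 := by omega
    simp only [srch, bad_false P hP r hr, bad_false Q hQ b hb, Bool.false_or]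
    rcases h ⟨20 - n, hn⟩ with h1 | h1
    · rw [ih _ _ (add_bit P r _ hn hr h1) hb, Bool.false_and]
    · rw [ih _ _ hr (add_bit Q b _ hn hb h1), Bool.and_false]

theorem no_two (P Q : Finset (Fin 21)) (hP : ∀ i, (AA i).Indep (P : Set (Fin 21)))
    (hQ : ∀ i, (AA i).Indep (Q : Set (Fin 21))) (h : ∀ e, e ∈ P ∨ e ∈ Q) : False := by
  have := srch_false P Q hP hQ h 21 0 0 (by simp) (by simp)
  rw [srch_ok] at this
  exact Bool.noConfusion this

end Pool.Agent.H.MP_633b85_co
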